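import Mathlib
import Pool.Agent.H77BP.Thr

/-!
# A gap between the plane threshold and the spanning threshold on the Hamming torus

For threshold `θ = 3` and dimension `d = 484` the critical probability for the appearance of an
open plane is at most `n ^ (-122)` while the critical probability for spanning the whole torus is
at least `n ^ (-121)`, for all large `n`.
-/

open Filter

namespace Pool.Agent.Results.MP_af82af_pr.ThresholdGap

open Pool.Agent.H77BP

/-- **Q1, answered yes, with `θ = 3` and `d = 484`.**  For all large `n`, both thresholds exist and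
are unique, and `log_n p_c(d,d) - log_n p_c(2,d) ≥ 1`. -/
theorem result :
    ∀ᶠ n : ℕ in atTop,
      (∃! p : ℝ, IsThreshold 484 n 3 2 p) ∧ (∃! q : ℝ, IsThreshold 484 n 3 484 q) ∧
      ∀ p q : ℝ, IsThreshold 484 n 3 2 p → IsThreshold 484 n 3 484 q →
        0 < p ∧ 0 < q ∧ Real.logb n q - Real.logb n p ≥ 1 := by
  rw [eventually_atTop]
  refine ⟨2 ^ 1940, fun n hn => ?_⟩
  have hn2 : 2 ^ 23 ≤ n := le_trans (Nat.pow_le_pow_right (by norm_num) (by norm_num)) hn
  have h1 := whole_small hn
  have h2 := plane_large hn2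
  have hn1 : 1 < n := lt_of_lt_of_le (by norm_num) hn2
  clear hn hn2
  have hn0 : 0 < n := by omega
  have hnr : (1 : ℝ) < n := by exact_mod_cast hn1
  have hnr0 : (0 : ℝ) < n := by linarith
  refine ⟨threshold_exists_unique (by norm_num) hn0 (by norm_num),
    threshold_exists_unique (by norm_num) hn0 (by norm_num), ?_⟩
  intro p q hp hq
  have hpx := threshold_lt hp (inv_nonneg.mpr (pow_nonneg hnr0.le _)) h2
  have hqx := threshold_gt hq (inv_le_one_of_one_le₀ (one_le_pow₀ hnr.le)) h1
  have hp0 : 0 < p := by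
    rcases lt_or_eq_of_le hp.1 with h | h
    · exact h
    · exfalso
      have h3 := hp.2.2
      rw [← h, prob_ind, Ex_zero, ind_empty 484 n 3 2 (by norm_num)] at h3
      norm_num at h3
  have hq0 : 0 < q := lt_trans (inv_pos.mpr (pow_pos hnr0 _)) hqx
  refine ⟨hp0, hq0, ?_⟩
  have l1 : Real.logb n p ≤ -122 := by
    have h3 : Real.logb n p ≤ Real.logb n (((n : ℝ) ^ 122)⁻¹) :=
      Real.logb_le_logb_of_le hnr hp0 hpx.le
    rw [Real.logb_inv, Real.logb_pow, Real.logb_self_eq_one hnr] at h3
    push_cast at h3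
    linarith
  have l2 : -121 ≤ Real.logb n q := by
    have h3 : Real.logb n (((n : ℝ) ^ 121)⁻¹) ≤ Real.logb n q :=
      Real.logb_le_logb_of_le hnr (inv_pos.mpr (pow_pos hnr0 _)) hqx.le
    rw [Real.logb_inv, Real.logb_pow, Real.logb_self_eq_one hnr] at h3
    push_cast at h3
    linarith
  show 1 ≤ Real.logb n q - Real.logb n p
  linarith

end Pool.Agent.Results.MP_af82af_pr.ThresholdGap
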